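import Mathlib

/-!
Definitions for the `1/2`-flow-pair problem (MP_e59a69_co).
-/

namespace Pool.Agent.H160R2.HF
open Finset

/-- A multigraph with vertex type `V` and edge type `E` (loops and parallel edges allowed) and a
fixed orientation: the edge `e` leaves the vertex `t e` and enters the vertex `h e`. -/
structure OrGraph (V E : Type*) where
  t : E → V
  h : E → V

namespace OrGraph

variable {V E : Type*} [Fintype V] [Fintype E] [DecidableEq V] [DecidableEq E] (G : OrGraph V E)

/-- Degree of `v` in the spanning subgraph with edge set `F`; a loop counts twice. -/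
def deg (F : Finset E) (v : V) : ℕ :=
  (F.filter (fun e => G.t e = v)).card + (F.filter (fun e => G.h e = v)).card

/-- Every vertex has degree three. -/
def Cubic : Prop := ∀ v, G.deg univ v = 3

/-- `F` is (the edge set of) a 2-factor: every vertex has degree two in `F`. -/
def IsTwoFactor (F : Finset E) : Prop := ∀ v, G.deg F v = 2

/-- The edge cut `δ(X)`: all edges with exactly one end in `X`. -/
def cut (X : Finset V) : Finset E := univ.filter (fun e => ¬ (G.t e ∈ X ↔ G.h e ∈ X))

/-- The simple graph on `V` in which two distinct vertices are adjacent when some edge of `F` joins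
them.  Its connected components are the components of the spanning subgraph `(V, F)`. -/
def sub (F : Finset E) : SimpleGraph V :=
  SimpleGraph.fromRel (fun u v => ∃ e ∈ F, G.t e = u ∧ G.h e = v)

/-- No edge is a bridge: after deleting an edge `e` its two ends are still connected. -/
def Bridgeless : Prop := ∀ e, (G.sub (univ.erase e)).Reachable (G.t e) (G.h e)

/-- The number of components of `(V, F)` with an odd number of vertices.  If `F` is a 2-factor
this is the number of odd cycles of the 2-factor. -/
noncomputable def oddCount (F : Finset E) : ℕ :=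
  Set.ncard {c : (G.sub F).ConnectedComponent | Odd c.supp.ncard}

/-- Conservation of flow at every vertex. -/
def IsFlow (φ : E → ℤ) : Prop :=
  ∀ v, ∑ e with G.t e = v, φ e = ∑ e with G.h e = v, φ e

/-- A (not necessarily nowhere-zero) integer `k`-flow. -/
def IsKFlow (k : ℕ) (φ : E → ℤ) : Prop := (∀ e, |φ e| ≤ (k : ℤ) - 1) ∧ G.IsFlow φ

/-- A `1/2`-flow-pair. -/
def IsHalfFlowPair (φ₂ φ₄ : E → ℤ) : Prop :=
  G.IsKFlow 2 φ₂ ∧ G.IsKFlow 4 φ₄ ∧ ∀ e, φ₂ e = 0 → 2 ≤ |φ₄ e|

/-- The subgraph induced by `X` contains a cycle (equivalently, a nonempty set of edges with both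
ends in `X` in which all degrees are even). -/
def HasCycleIn (X : Finset V) : Prop :=
  ∃ C : Finset E, C.Nonempty ∧ (∀ e ∈ C, G.t e ∈ X ∧ G.h e ∈ X) ∧ ∀ v, Even (G.deg C v)

/-- Cyclically 4-edge-connected: an edge cut with a cycle on both sides has at least four edges. -/
def CyclicallyFourEdgeConnected : Prop :=
  ∀ X : Finset V, G.HasCycleIn X → G.HasCycleIn Xᶜ → 4 ≤ (G.cut X).card

end OrGraph

end Pool.Agent.H160R2.HF
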