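import Pool.Agent.H160R2.HF.Main

namespace Pool.Agent.H160R2.HF
open Finset

namespace OrGraph
variable {V E : Type*} [Fintype V] [Fintype E] [DecidableEq V] [DecidableEq E] (G : OrGraph V E)

omit [Fintype V] [DecidableEq V] in
theorem reachable_mem [Fintype V] [DecidableEq V] (F : Finset E) (X : Finset V)
    (hX : ∀ e ∈ F, (G.t e ∈ X ↔ G.h e ∈ X)) {u v : V} (h : (G.sub F).Reachable u v) :
    u ∈ X ↔ v ∈ X := by
  obtain ⟨w⟩ := h
  induction w with
  | nil => rfl
  | cons hadj _ ih =>
    rw [← ih]
    rw [sub, SimpleGraph.fromRel_adj] at hadj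
    rcases hadj.2 with ⟨e, he, h1, h2⟩ | ⟨e, he, h1, h2⟩
    · rw [← h1, ← h2]; exact hX e he
    · rw [← h1, ← h2]; exact (hX e he).symm

theorem cut_card_ne_one (hb : G.Bridgeless) (X : Finset V) : (G.cut X).card ≠ 1 := by
  intro h1
  obtain ⟨e, he⟩ := Finset.card_eq_one.1 h1
  have hmem : e ∈ G.cut X := by rw [he]; simp
  have h2 := G.reachable_mem (univ.erase e) X (by
    intro e' he'
    by_contra hcon
    have : e' ∈ G.cut X := by simp [cut, hcon]
    rw [he, Finset.mem_singleton] at this
    exact (Finset.mem_erase.1 he').1 this) (hb e)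
  rw [cut, Finset.mem_filter] at hmem
  exact hmem.2 h2

theorem isFlow_of_net {φ : E → ℤ} (h : ∀ v, net G.t G.h φ v = 0) : G.IsFlow φ := by
  intro v
  have := h v
  unfold net at this
  linarith

/-- Sufficiency. -/
theorem exists_pair (hc : G.Cubic) (hb : ∀ X : Finset V, (G.cut X).card ≠ 1) (F : Finset E)
    (hF : G.IsTwoFactor F) (hodd : G.oddCount F ≤ 2)
    (h3 : ∀ X : Finset V, (G.cut X).card = 3 → (G.cut X ∩ F).Nonempty) :
    ∃ φ₂ φ₄ : E → ℤ, G.IsHalfFlowPair φ₂ φ₄ ∧ ∀ e, φ₂ e ≠ 0 ↔ e ∈ F := by
  classical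
  obtain ⟨B, hBF, hB1, hB2⟩ := G.exists_matching F hF hodd
  have hdegM : ∀ v, G.deg Fᶜ v = 1 := by
    intro v
    have h1 : G.deg F v + G.deg Fᶜ v = G.deg univ v := by
      unfold deg
      have h2 : ∀ k : E → V, (F.filter (fun e => k e = v)).card +
          (Fᶜ.filter (fun e => k e = v)).card = (univ.filter (fun e => k e = v)).card := by
        intro k
        rw [← Finset.card_union_of_disjoint, ← Finset.filter_union, Finset.union_compl]
        exact Finset.disjoint_filter_filter disjoint_compl_right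
      have h3 := h2 G.t
      have h4 := h2 G.h
      omega
    have h2 := hF v
    have h3 := hc v
    omega
  obtain ⟨ψ, hψ1, hψ2⟩ := G.exists_orientation Fᶜ B
    (Finset.disjoint_of_subset_right hBF disjoint_compl_left) hdegM hB1 hB2
  obtain ⟨φ₂, h21, h22⟩ := eulerian G.t G.h F (fun v => by
    have := hF v
    unfold deg at this
    rw [this]; decide)
  obtain ⟨φ₄, h41, h42⟩ := hoffman G.t G.h
    (fun e => if e ∈ F then -3 else if ψ e = 1 then 2 else -3)
    (fun e => if e ∈ F then 3 else if ψ e = 1 then 3 else -2)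
    (fun _ => 0) (fun e => by split_ifs <;> simp) (by simp) (by
      intro X
      -- twice the Hoffman function
      have hff : 2 * ff G.t G.h (fun e => if e ∈ F then -3 else if ψ e = 1 then 2 else -3)
          (fun e => if e ∈ F then 3 else if ψ e = 1 then 3 else -2) (fun _ => 0) X =
          6 * (G.cut X ∩ F).card + (G.cut X ∩ Fᶜ).card -
            5 * ∑ v ∈ X, net G.t G.h ψ v := by
        unfold ff
        rw [net_sum]
        have e1 : ((G.cut X ∩ F).card : ℤ) = ∑ e, if e ∈ G.cut X ∩ F then 1 else 0 := by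
          simp only [Finset.sum_boole]
          congr 2
          ext e; simp
        have e2 : ((G.cut X ∩ Fᶜ).card : ℤ) = ∑ e, if e ∈ G.cut X ∩ Fᶜ then 1 else 0 := by
          simp only [Finset.sum_boole]
          congr 2
          ext e; simp
        rw [e1, e2, Finset.mul_sum, Finset.mul_sum, ← Finset.sum_add_distrib,
          ← Finset.sum_sub_distrib]
        rw [Finset.sum_const_zero, zero_add, Finset.mul_sum]
        refine Finset.sum_congr rfl fun e _ => ?_
        unfold ce
        by_cases he : e ∈ F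
        · have h0 : ψ e = 0 := (hψ1 e).2 (by simpa using he)
          by_cases a : G.t e ∈ X <;> by_cases b : G.h e ∈ X <;> simp [a, b, he, cut, h0]
        · rcases (hψ1 e).1 (by simpa using he) with h | h <;>
          by_cases a : G.t e ∈ X <;> by_cases b : G.h e ∈ X <;> simp [a, b, he, cut, h]
      have hm := G.abs_net_le ψ Fᶜ (fun e he => by
        rcases (hψ1 e).1 he with h | h <;> rw [h] <;> simp) (fun e he => (hψ1 e).2 he) X
      have hb' := hψ2 X
      have hbf : (G.cut X ∩ B).card ≤ (G.cut X ∩ F).card :=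
        Finset.card_le_card (Finset.inter_subset_inter_left hBF)
      have hhs := G.handshake F X
      rw [Finset.sum_congr rfl (fun v _ => hF v)] at hhs
      simp only [Finset.sum_const, smul_eq_mul] at hhs
      have hcard : (G.cut X).card = (G.cut X ∩ F).card + (G.cut X ∩ Fᶜ).card := by
        rw [← Finset.card_union_of_disjoint, ← Finset.inter_union_distrib_left,
          Finset.union_compl, Finset.inter_univ]
        exact Finset.disjoint_of_subset_left Finset.inter_subset_right
          (Finset.disjoint_of_subset_right Finset.inter_subset_right disjoint_compl_right)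
      have hne1 := hb X
      have hne3 : (G.cut X ∩ F).card = 0 → (G.cut X).card ≠ 3 := by
        intro h0 h3'
        have := h3 X h3'
        rw [Finset.card_eq_zero] at h0
        rw [h0] at this
        exact Finset.not_nonempty_empty this
      rw [abs_le] at hm hb'
      by_cases hf0 : (G.cut X ∩ F).card = 0
      · have := hne3 hf0
        omega
      · omega)
  refine ⟨φ₂, φ₄, ⟨⟨fun e => ?_, G.isFlow_of_net h22⟩, ⟨fun e => ?_, G.isFlow_of_net h42⟩,
    fun e he => ?_⟩, fun e => ?_⟩
  · by_cases he : e ∈ F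
    · rcases (h21 e).1 he with h | h <;> rw [h] <;> simp
    · rw [(h21 e).2 he]; simp
  · have h1 := h41 e
    rw [abs_le]
    push_cast
    split_ifs at h1 <;> constructor <;> omega
  · have he' : e ∉ F := by
      intro heF
      rcases (h21 e).1 heF with h | h <;> rw [h] at he <;> simp at he
    have h1 := h41 e
    rw [if_neg he', if_neg he'] at h1
    rw [le_abs]
    split_ifs at h1
    · left; exact h1.1
    · right; omega
  · constructor
    · intro h
      by_contra he
      exact h ((h21 e).2 he)
    · intro he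
      rcases (h21 e).1 he with h | h <;> rw [h] <;> simp

/-- Necessity. -/
theorem cut_meets (F : Finset E) {φ₂ φ₄ : E → ℤ} (h : G.IsHalfFlowPair φ₂ φ₄)
    (hs : ∀ e, φ₂ e ≠ 0 ↔ e ∈ F) (X : Finset V) (hX : (G.cut X).card = 3) :
    (G.cut X ∩ F).Nonempty := by
  classical
  by_contra hcon
  rw [Finset.not_nonempty_iff_eq_empty] at hcon
  obtain ⟨_, ⟨h4, hfl⟩, hge⟩ := h
  have hval : ∀ e ∈ G.cut X, 2 ≤ |φ₄ e| ∧ |φ₄ e| ≤ 3 := by
    intro e he
    have heF : e ∉ F := by
      intro heF
      have : e ∈ G.cut X ∩ F := Finset.mem_inter.2 ⟨he, heF⟩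
      rw [hcon] at this
      simp at this
    have h0 : φ₂ e = 0 := by
      by_contra h0
      exact heF ((hs e).1 h0)
    refine ⟨hge e h0, ?_⟩
    have := h4 e
    push_cast at this
    linarith
  have hnet : ∑ v ∈ X, net G.t G.h φ₄ v = 0 := by
    apply Finset.sum_eq_zero
    intro v _
    unfold net
    have := hfl v
    linarith
  rw [net_sum] at hnet
  have hsum : ∑ e ∈ G.cut X, ((if G.t e ∈ X then φ₄ e else 0) -
      (if G.h e ∈ X then φ₄ e else 0)) = 0 := by
    refine Eq.trans (Finset.sum_subset (Finset.subset_univ _) ?_) hnet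
    intro e _ he
    simp only [cut, Finset.mem_filter, Finset.mem_univ, true_and, not_not] at he
    by_cases a : G.t e ∈ X
    · simp [a, he.1 a]
    · have : G.h e ∉ X := fun b => a (he.2 b)
      simp [a, this]
  obtain ⟨a, b, c, hab, hac, hbc, habc⟩ := Finset.card_eq_three.1 hX
  have hterm : ∀ e ∈ G.cut X, ((if G.t e ∈ X then φ₄ e else 0) -
      (if G.h e ∈ X then φ₄ e else 0)) = φ₄ e ∨ ((if G.t e ∈ X then φ₄ e else 0) -
      (if G.h e ∈ X then φ₄ e else 0)) = - φ₄ e := by
    intro e he
    simp only [cut, Finset.mem_filter, Finset.mem_univ, true_and] at he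
    by_cases x : G.t e ∈ X <;> by_cases y : G.h e ∈ X <;> simp_all
  rw [habc, Finset.sum_insert (by simp [hab, hac]), Finset.sum_pair hbc] at hsum
  have ha : a ∈ G.cut X := by rw [habc]; simp
  have hb : b ∈ G.cut X := by rw [habc]; simp
  have hc : c ∈ G.cut X := by rw [habc]; simp
  have ta := hterm a ha
  have tb := hterm b hb
  have tc := hterm c hc
  have va := hval a ha
  have vb := hval b hb
  have vc := hval c hc
  generalize ((if G.t a ∈ X then φ₄ a else 0) - (if G.h a ∈ X then φ₄ a else 0)) = xa at *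
  generalize ((if G.t b ∈ X then φ₄ b else 0) - (if G.h b ∈ X then φ₄ b else 0)) = xb at *
  generalize ((if G.t c ∈ X then φ₄ c else 0) - (if G.h c ∈ X then φ₄ c else 0)) = xc at *
  rw [le_abs, abs_le] at va vb vc
  omega

/-- The characterisation for 2-factors with at most two odd cycles. -/
theorem pair_iff (hc : G.Cubic) (hb : G.Bridgeless) (F : Finset E)
    (hF : G.IsTwoFactor F) (hodd : G.oddCount F ≤ 2) :
    (∃ φ₂ φ₄ : E → ℤ, G.IsHalfFlowPair φ₂ φ₄ ∧ ∀ e, φ₂ e ≠ 0 ↔ e ∈ F) ↔
      ∀ X : Finset V, (G.cut X).card = 3 → (G.cut X ∩ F).Nonempty :=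
  ⟨fun ⟨_, _, h, hs⟩ X hX => G.cut_meets F h hs X hX,
    fun h3 => G.exists_pair hc (G.cut_card_ne_one hb) F hF hodd h3⟩

/-- A cut avoiding a 2-factor has a cycle on both sides. -/
theorem hasCycleIn_of_cut (F : Finset E) (hF : G.IsTwoFactor F) (X : Finset V)
    (hX : G.cut X ∩ F = ∅) (hne : X.Nonempty) : G.HasCycleIn X := by
  have hside : ∀ e ∈ F, (G.t e ∈ X ↔ G.h e ∈ X) := by
    intro e he
    by_contra hcon
    have : e ∈ G.cut X ∩ F := by simp [cut, hcon, he]
    rw [hX] at this
    simp at this
  refine ⟨F.filter (fun e => G.t e ∈ X), ?_, ?_, ?_⟩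
  · obtain ⟨v, hv⟩ := hne
    have h1 := hF v
    unfold deg at h1
    by_cases h2 : (F.filter (fun e => G.t e = v)).card = 0
    · have h3 : 0 < (F.filter (fun e => G.h e = v)).card := by omega
      obtain ⟨e, he⟩ := Finset.card_pos.1 h3
      rw [Finset.mem_filter] at he
      refine ⟨e, Finset.mem_filter.2 ⟨he.1, ?_⟩⟩
      rw [hside e he.1, he.2]; exact hv
    · obtain ⟨e, he⟩ := Finset.card_pos.1 (Nat.pos_of_ne_zero h2)
      rw [Finset.mem_filter] at he
      refine ⟨e, Finset.mem_filter.2 ⟨he.1, ?_⟩⟩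
      rw [he.2]; exact hv
  · intro e he
    rw [Finset.mem_filter] at he
    exact ⟨he.2, (hside e he.1).1 he.2⟩
  · intro v
    have key : G.deg (F.filter (fun e => G.t e ∈ X)) v = if v ∈ X then G.deg F v else 0 := by
      unfold deg
      rw [Finset.filter_filter, Finset.filter_filter]
      by_cases hv : v ∈ X
      · rw [if_pos hv]
        congr 2
        · ext e
          simp only [Finset.mem_filter]
          exact ⟨fun h => ⟨h.1, h.2.2⟩, fun h => ⟨h.1, by rw [h.2]; exact hv, h.2⟩⟩
        · ext e
          simp only [Finset.mem_filter]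
          exact ⟨fun h => ⟨h.1, h.2.2⟩, fun h => ⟨h.1, by rw [hside e h.1, h.2]; exact hv, h.2⟩⟩
      · rw [if_neg hv]
        have h1 : F.filter (fun e => G.t e ∈ X ∧ G.t e = v) = ∅ := by
          ext e
          simp only [Finset.mem_filter, Finset.notMem_empty, iff_false]
          rintro ⟨_, h2, h3⟩
          rw [h3] at h2; exact hv h2
        have h2 : F.filter (fun e => G.t e ∈ X ∧ G.h e = v) = ∅ := by
          ext e
          simp only [Finset.mem_filter, Finset.notMem_empty, iff_false]
          rintro ⟨h1, h2, h3⟩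
          rw [hside e h1, h3] at h2; exact hv h2
        rw [h1, h2]; simp
    rw [key]
    split_ifs
    · rw [hF v]; decide
    · decide

/-- Cyclically 4-edge-connected cubic graphs of oddness at most two. -/
theorem exists_pair_of_cyclicallyFour (hc : G.Cubic) (h4 : G.CyclicallyFourEdgeConnected)
    (F : Finset E) (hF : G.IsTwoFactor F) (hodd : G.oddCount F ≤ 2) :
    ∃ φ₂ φ₄ : E → ℤ, G.IsHalfFlowPair φ₂ φ₄ ∧ ∀ e, φ₂ e ≠ 0 ↔ e ∈ F := by
  have hbig : ∀ X : Finset V, G.cut X ∩ F = ∅ → (G.cut X).Nonempty → 4 ≤ (G.cut X).card := by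
    intro X h1 h2
    have hcompl : G.cut Xᶜ = G.cut X := by
      ext e; simp [cut, not_iff_not]
    obtain ⟨e, he⟩ := h2
    rw [cut, Finset.mem_filter] at he
    have hX : X.Nonempty := by
      by_contra hcon
      rw [Finset.not_nonempty_iff_eq_empty] at hcon
      rw [hcon] at he; simp at he
    have hXc : Xᶜ.Nonempty := by
      by_contra hcon
      rw [Finset.not_nonempty_iff_eq_empty, Finset.compl_eq_empty_iff] at hcon
      rw [hcon] at he; simp at he
    exact h4 X (G.hasCycleIn_of_cut F hF X h1 hX)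
      (G.hasCycleIn_of_cut F hF Xᶜ (by rw [hcompl]; exact h1) hXc)
  apply G.exists_pair hc _ F hF hodd
  · intro X hX
    by_contra hcon
    rw [Finset.not_nonempty_iff_eq_empty] at hcon
    have := hbig X hcon (by rw [← Finset.card_pos]; omega)
    omega
  · intro X hX
    have hhs := G.handshake F X
    rw [Finset.sum_congr rfl (fun v _ => hF v)] at hhs
    simp only [Finset.sum_const, smul_eq_mul] at hhs
    have hle : (G.cut X ∩ F).card ≤ (G.cut X).card := Finset.card_le_card Finset.inter_subset_left
    have h0 : (G.cut X ∩ F).card = 0 := by omega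
    rw [Finset.card_eq_zero] at h0
    have := hbig X h0 (by rw [← Finset.card_pos]; omega)
    omega

end OrGraph
end Pool.Agent.H160R2.HF
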