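import Mathlib

/-!
Hoffman's circulation theorem with demands, for integer flows on finite multigraphs
(given by two maps `t h : E → V`, edge `e` going from `t e` to `h e`).
-/

namespace Pool.Agent.H160R2.HF
open Finset

variable {V E : Type*} [Fintype V] [Fintype E] [DecidableEq V] [DecidableEq E]

/-- net outflow of `g` at `v`. -/
def net (t h : E → V) (g : E → ℤ) (v : V) : ℤ :=
  (∑ e with t e = v, g e) - ∑ e with h e = v, g e

/-- contribution of an edge to the Hoffman function. -/
def ce (t h : E → V) (lo hi : E → ℤ) (X : Finset V) (e : E) : ℤ :=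
  if h e ∈ X ∧ t e ∉ X then hi e else if t e ∈ X ∧ h e ∉ X then - lo e else 0

/-- Hoffman's function. -/
def ff (t h : E → V) (lo hi : E → ℤ) (d : V → ℤ) (X : Finset V) : ℤ :=
  (∑ v ∈ X, d v) + ∑ e, ce t h lo hi X e

theorem net_sum (t h : E → V) (g : E → ℤ) (X : Finset V) :
    ∑ v ∈ X, net t h g v =
      ∑ e, ((if t e ∈ X then g e else 0) - (if h e ∈ X then g e else 0)) := by
  unfold net
  rw [Finset.sum_sub_distrib, Finset.sum_sub_distrib]
  congr 1
  · simp_rw [Finset.sum_filter]
    rw [Finset.sum_comm]
    refine Finset.sum_congr rfl fun e _ => ?_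
    simp
  · simp_rw [Finset.sum_filter]
    rw [Finset.sum_comm]
    refine Finset.sum_congr rfl fun e _ => ?_
    simp

theorem ce_sub (t h : E → V) (lo hi : E → ℤ) (hle : ∀ e, lo e ≤ hi e) (X Y : Finset V) (e : E) :
    ce t h lo hi (X ∩ Y) e + ce t h lo hi (X ∪ Y) e ≤ ce t h lo hi X e + ce t h lo hi Y e := by
  have := hle e
  unfold ce
  by_cases h1 : t e ∈ X <;> by_cases h2 : t e ∈ Y <;> by_cases h3 : h e ∈ X <;>
    by_cases h4 : h e ∈ Y <;> simp [h1, h2, h3, h4] <;> linarith

theorem hoffman_aux (t h : E → V) (d : V → ℤ) (hd : ∑ v, d v = 0) (n : ℕ) :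
    ∀ lo hi : E → ℤ, (∀ e, lo e ≤ hi e) → (∑ e, (hi e - lo e)) = n →
      (∀ X, 0 ≤ ff t h lo hi d X) →
      ∃ g : E → ℤ, (∀ e, lo e ≤ g e ∧ g e ≤ hi e) ∧ ∀ v, net t h g v = d v := by
  induction n with
  | zero =>
    intro lo hi hle hs hf
    have heq : ∀ e, hi e = lo e := by
      have h0 : ∑ e, (hi e - lo e) = 0 := by simpa using hs
      have h1 := (Finset.sum_eq_zero_iff_of_nonneg (fun e _ => by have := hle e; linarith)).1 h0
      intro e
      have := h1 e (mem_univ e)
      linarith
    refine ⟨lo, fun e => ⟨le_rfl, (heq e).ge⟩, ?_⟩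
    have hge : ∀ v, 0 ≤ d v - net t h lo v := by
      intro v
      have h1 := hf {v}
      have h2 := net_sum t h lo {v}
      rw [Finset.sum_singleton] at h2
      unfold ff at h1
      rw [Finset.sum_singleton] at h1
      rw [h2]
      have h3 : ∑ e, ce t h lo hi {v} e =
          - ∑ e, ((if t e ∈ ({v} : Finset V) then lo e else 0) -
            (if h e ∈ ({v} : Finset V) then lo e else 0)) := by
        rw [← Finset.sum_neg_distrib]
        refine Finset.sum_congr rfl fun e _ => ?_
        unfold ce
        rw [heq e]
        by_cases a : t e = v <;> by_cases b : h e = v <;> simp [a, b]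
      rw [h3] at h1
      linarith
    have hsum : ∑ v, (d v - net t h lo v) = 0 := by
      rw [Finset.sum_sub_distrib, hd, net_sum]
      simp
    have h1 := (Finset.sum_eq_zero_iff_of_nonneg (fun v _ => hge v)).1 hsum
    intro v
    have := h1 v (mem_univ v)
    linarith
  | succ n ih =>
    intro lo hi hle hs hf
    have hex : ∃ e, lo e < hi e := by
      by_contra hcon
      push Not at hcon
      have : ∑ e, (hi e - lo e) ≤ 0 := Finset.sum_nonpos fun e _ => by
        have := hcon e; linarith
      rw [hs] at this
      push_cast at this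
      have h2 : (0 : ℤ) ≤ n := Int.natCast_nonneg n
      linarith
    obtain ⟨e0, he0⟩ := hex
    -- raise the lower bound
    by_cases hA : ∀ X, 0 ≤ ff t h (Function.update lo e0 (lo e0 + 1)) hi d X
    · obtain ⟨g, hg1, hg2⟩ := ih (Function.update lo e0 (lo e0 + 1)) hi (by
        intro e
        by_cases he : e = e0
        · subst he; simp; linarith
        · simp [he]; exact hle e) (by
        have h1 : ∑ e, (hi e - Function.update lo e0 (lo e0 + 1) e) =
            (∑ e, (hi e - lo e)) - 1 := by
          have : ∀ e, hi e - Function.update lo e0 (lo e0 + 1) e =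
              (hi e - lo e) - (if e = e0 then 1 else 0) := by
            intro e
            by_cases he : e = e0
            · subst he; simp; ring
            · simp [he]
          simp_rw [this]
          rw [Finset.sum_sub_distrib]
          simp
        rw [h1, hs]; push_cast; ring) hA
      refine ⟨g, fun e => ⟨?_, (hg1 e).2⟩, hg2⟩
      have h1 := (hg1 e).1
      by_cases he : e = e0
      · subst he; simp at h1; linarith
      · simpa [he] using h1
    · by_cases hB : ∀ X, 0 ≤ ff t h lo (Function.update hi e0 (hi e0 - 1)) d X
      · obtain ⟨g, hg1, hg2⟩ := ih lo (Function.update hi e0 (hi e0 - 1)) (by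
          intro e
          by_cases he : e = e0
          · subst he; simp; linarith
          · simp [he]; exact hle e) (by
          have h1 : ∑ e, (Function.update hi e0 (hi e0 - 1) e - lo e) =
              (∑ e, (hi e - lo e)) - 1 := by
            have : ∀ e, Function.update hi e0 (hi e0 - 1) e - lo e =
                (hi e - lo e) - (if e = e0 then 1 else 0) := by
              intro e
              by_cases he : e = e0
              · subst he; simp; ring
              · simp [he]
            simp_rw [this]
            rw [Finset.sum_sub_distrib]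
            simp
          rw [h1, hs]; push_cast; ring) hB
        refine ⟨g, fun e => ⟨(hg1 e).1, ?_⟩, hg2⟩
        have h1 := (hg1 e).2
        by_cases he : e = e0
        · subst he; simp at h1; linarith
        · simpa [he] using h1
      · exfalso
        push Not at hA hB
        obtain ⟨X, hX⟩ := hA
        obtain ⟨Y, hY⟩ := hB
        -- X is tight and e0 leaves X
        have hXc : ∑ e, ce t h (Function.update lo e0 (lo e0 + 1)) hi X e =
            (∑ e, ce t h lo hi X e) - (if t e0 ∈ X ∧ h e0 ∉ X then 1 else 0) := by
          have : ∀ e, ce t h (Function.update lo e0 (lo e0 + 1)) hi X e =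
              ce t h lo hi X e - (if e = e0 then (if t e0 ∈ X ∧ h e0 ∉ X then 1 else 0) else 0) := by
            intro e
            unfold ce
            by_cases he : e = e0
            · subst he
              by_cases a : t e ∈ X <;> by_cases b : h e ∈ X <;> simp [a, b]; ring
            · simp [he]
          simp_rw [this]
          rw [Finset.sum_sub_distrib]
          simp
        have hYc : ∑ e, ce t h lo (Function.update hi e0 (hi e0 - 1)) Y e =
            (∑ e, ce t h lo hi Y e) - (if h e0 ∈ Y ∧ t e0 ∉ Y then 1 else 0) := by
          have : ∀ e, ce t h lo (Function.update hi e0 (hi e0 - 1)) Y e =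
              ce t h lo hi Y e - (if e = e0 then (if h e0 ∈ Y ∧ t e0 ∉ Y then 1 else 0) else 0) := by
            intro e
            unfold ce
            by_cases he : e = e0
            · subst he
              by_cases a : t e ∈ Y <;> by_cases b : h e ∈ Y <;> simp [a, b]
            · simp [he]
          simp_rw [this]
          rw [Finset.sum_sub_distrib]
          simp
        have fX := hf X
        have fY := hf Y
        have fI := hf (X ∩ Y)
        have fU := hf (X ∪ Y)
        unfold ff at hX hY fX fY fI fU
        rw [hXc] at hX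
        rw [hYc] at hY
        have hX1 : t e0 ∈ X ∧ h e0 ∉ X := by
          by_contra hc
          rw [if_neg hc] at hX
          linarith
        have hY1 : h e0 ∈ Y ∧ t e0 ∉ Y := by
          by_contra hc
          rw [if_neg hc] at hY
          linarith
        rw [if_pos hX1] at hX
        rw [if_pos hY1] at hY
        have hmod := Finset.sum_union_inter (s₁ := X) (s₂ := Y) (f := d)
        have hlt : ∑ e, (ce t h lo hi (X ∩ Y) e + ce t h lo hi (X ∪ Y) e) <
            ∑ e, (ce t h lo hi X e + ce t h lo hi Y e) := by
          refine Finset.sum_lt_sum (fun e _ => ce_sub t h lo hi hle X Y e) ⟨e0, mem_univ _, ?_⟩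
          unfold ce
          simp [hX1.1, hX1.2, hY1.1, hY1.2]
          linarith
        rw [Finset.sum_add_distrib, Finset.sum_add_distrib] at hlt
        linarith

/-- Hoffman's theorem (with demands `d`, net outflow). -/
theorem hoffman (t h : E → V) (lo hi : E → ℤ) (d : V → ℤ) (hle : ∀ e, lo e ≤ hi e)
    (hd : ∑ v, d v = 0) (hf : ∀ X, 0 ≤ ff t h lo hi d X) :
    ∃ g : E → ℤ, (∀ e, lo e ≤ g e ∧ g e ≤ hi e) ∧ ∀ v, net t h g v = d v := by
  have h0 : 0 ≤ ∑ e, (hi e - lo e) := Finset.sum_nonneg fun e _ => by
    have := hle e; linarith
  exact hoffman_aux t h d hd (∑ e, (hi e - lo e)).toNat lo hi hle (by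
    rw [Int.toNat_of_nonneg h0]) hf

/-- Eulerian orientation: if every vertex has even degree in `F`, there is a flow that is `±1` on
`F` and `0` off `F`. -/
theorem eulerian (t h : E → V) (F : Finset E)
    (hev : ∀ v, Even ((F.filter (fun e => t e = v)).card + (F.filter (fun e => h e = v)).card)) :
    ∃ ψ : E → ℤ, (∀ e, (e ∈ F → ψ e = 1 ∨ ψ e = -1) ∧ (e ∉ F → ψ e = 0)) ∧
      ∀ v, net t h ψ v = 0 := by
  -- `x = (ψ + 1)/2` on `F`
  choose k hk using hev
  let i : E → ℤ := fun e => if e ∈ F then 1 else 0
  have hnet : ∀ v, net t h i v =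
      2 * ((k v : ℤ) - (F.filter (fun e => h e = v)).card) := by
    intro v
    have h1 : ∑ e with t e = v, i e = ((F.filter (fun e => t e = v)).card : ℤ) := by
      simp only [i]
      rw [Finset.sum_ite_mem, Finset.sum_const]
      simp
      congr 1
      ext e; simp [and_comm]
    have h2 : ∑ e with h e = v, i e = ((F.filter (fun e => h e = v)).card : ℤ) := by
      simp only [i]
      rw [Finset.sum_ite_mem, Finset.sum_const]
      simp
      congr 1
      ext e; simp [and_comm]
    unfold net
    rw [h1, h2]
    have := hk v
    have h3 : ((F.filter (fun e => t e = v)).card : ℤ) + (F.filter (fun e => h e = v)).card =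
      k v + k v := by exact_mod_cast this
    linarith
  obtain ⟨g, hg1, hg2⟩ := hoffman t h (fun _ => 0) i
    (fun v => (k v : ℤ) - (F.filter (fun e => h e = v)).card)
    (fun e => by simp only [i]; split_ifs <;> simp)
    (by
      have h1 : ∑ v, net t h i v = 0 := by rw [net_sum]; simp
      simp_rw [hnet] at h1
      rw [← Finset.mul_sum] at h1
      linarith)
    (by
      intro X
      have h1 := net_sum t h i X
      simp_rw [hnet] at h1
      rw [← Finset.mul_sum] at h1
      unfold ff
      have h2 : 0 ≤ 2 * (∑ v ∈ X, ((k v : ℤ) - (F.filter (fun e => h e = v)).card) +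
          ∑ e, ce t h (fun _ => 0) i X e) := by
        rw [mul_add, h1, Finset.mul_sum, ← Finset.sum_add_distrib]
        refine Finset.sum_nonneg fun e _ => ?_
        have hi0 : 0 ≤ i e := by simp only [i]; split_ifs <;> simp
        unfold ce
        by_cases a : t e ∈ X <;> by_cases b : h e ∈ X <;> simp [a, b] <;> linarith
      linarith)
  refine ⟨fun e => 2 * g e - i e, ?_, ?_⟩
  · intro e
    have h1 := hg1 e
    constructor
    · intro he
      simp only [i, he, if_true] at h1 ⊢
      omega
    · intro he
      simp only [i, he, if_false] at h1 ⊢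
      omega
  · intro v
    have h1 : net t h (fun e => 2 * g e - i e) v = 2 * net t h g v - net t h i v := by
      unfold net
      rw [Finset.sum_sub_distrib, Finset.sum_sub_distrib, ← Finset.mul_sum, ← Finset.mul_sum]
      ring
    rw [h1, hg2, hnet]
    ring

end Pool.Agent.H160R2.HF
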