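import Pool.Agent.H160R2.HF.Matching

namespace Pool.Agent.H160R2.HF
open Finset

namespace OrGraph
variable {V E : Type*} [Fintype V] [Fintype E] [DecidableEq V] [DecidableEq E] (G : OrGraph V E)

/-- Bounds of a net outflow over a set by the size of a cut. -/
theorem abs_net_le (ψ : E → ℤ) (A : Finset E) (h1 : ∀ e ∈ A, |ψ e| ≤ 1) (h0 : ∀ e ∉ A, ψ e = 0)
    (X : Finset V) : |∑ v ∈ X, net G.t G.h ψ v| ≤ (G.cut X ∩ A).card := by
  rw [net_sum]
  have h2 : ((G.cut X ∩ A).card : ℤ) = ∑ e, if e ∈ G.cut X ∩ A then 1 else 0 := by
    simp only [Finset.sum_boole]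
    congr 2
    ext e; simp
  rw [h2]
  refine (Finset.abs_sum_le_sum_abs _ _).trans (Finset.sum_le_sum fun e _ => ?_)
  by_cases he : e ∈ A
  · have := h1 e he
    by_cases a : G.t e ∈ X <;> by_cases b : G.h e ∈ X <;> simp [a, b, he, cut, this]
  · rw [h0 e he]
    simp [he]

/-- The orientation of the perfect matching. -/
theorem exists_orientation (M B : Finset E) (hMB : Disjoint M B) (hM : ∀ v, G.deg M v = 1)
    (hB : ∀ v, G.deg B v ≤ 1) (hU : (univ.filter (fun v => G.deg B v = 0)).card ≤ 2) :
    ∃ ψ : E → ℤ, (∀ e, (e ∈ M → ψ e = 1 ∨ ψ e = -1) ∧ (e ∉ M → ψ e = 0)) ∧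
      ∀ X : Finset V, |∑ v ∈ X, net G.t G.h ψ v| ≤ (G.cut X ∩ B).card +
        (((G.cut X ∩ B).card + (G.cut X ∩ M).card) % 2 : ℕ) := by
  classical
  set U := univ.filter (fun v => G.deg B v = 0) with hUdef
  have hdegMB : ∀ v, G.deg (M ∪ B) v = G.deg M v + G.deg B v := by
    intro v
    unfold deg
    rw [Finset.filter_union, Finset.filter_union, Finset.card_union_of_disjoint,
      Finset.card_union_of_disjoint]
    · ring
    · exact Finset.disjoint_filter_filter hMB
    · exact Finset.disjoint_filter_filter hMB
  have hB1 : ∀ v, v ∉ U → G.deg B v = 1 := by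
    intro v hv
    have h1 := hB v
    have h2 : G.deg B v ≠ 0 := fun h => hv (by rw [hUdef, Finset.mem_filter]; exact ⟨mem_univ _, h⟩)
    omega
  have hB0 : ∀ v, v ∈ U → G.deg B v = 0 := fun v hv => (Finset.mem_filter.1 hv).2
  -- parity of the number of uncovered vertices
  have hparX : ∀ X : Finset V, (X ∩ U).card + ((G.cut X ∩ B).card + (G.cut X ∩ M).card) =
      2 * (X.card - (B.filter (fun e => G.t e ∈ X ∧ G.h e ∈ X)).card -
        (M.filter (fun e => G.t e ∈ X ∧ G.h e ∈ X)).card) ∧
      (B.filter (fun e => G.t e ∈ X ∧ G.h e ∈ X)).card +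
        (M.filter (fun e => G.t e ∈ X ∧ G.h e ∈ X)).card ≤ X.card := by
    intro X
    have h1 := G.handshake M X
    have h2 := G.handshake B X
    have h3 : ∑ v ∈ X, G.deg M v = X.card := by
      rw [Finset.sum_congr rfl (fun v _ => hM v)]; simp
    have h4 : ∑ v ∈ X, G.deg B v + (X ∩ U).card = X.card := by
      have h5 : (X ∩ U).card = ∑ v ∈ X, if v ∈ U then 1 else 0 := by
        rw [← Finset.card_filter, Finset.filter_mem_eq_inter]
      rw [h5, ← Finset.sum_add_distrib]
      have : ∀ v ∈ X, G.deg B v + (if v ∈ U then 1 else 0) = 1 := by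
        intro v _
        by_cases h : v ∈ U
        · rw [if_pos h, hB0 v h]
        · rw [if_neg h, hB1 v h]
      rw [Finset.sum_congr rfl this]; simp
    rw [h3] at h1
    omega
  have hUeven : Even U.card := by
    have h1 := (hparX univ).1
    have h2 : G.cut univ = ∅ := by ext e; simp [cut]
    rw [h2] at h1
    simp at h1
    exact ⟨_, by rw [h1]; ring⟩
  have hUcases : U.card = 0 ∨ U.card = 2 := by
    obtain ⟨k, hk⟩ := hUeven
    omega
  rcases hUcases with h0 | h2
  · -- `B` is perfect
    have hUe : U = ∅ := Finset.card_eq_zero.1 h0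
    obtain ⟨χ, hχ1, hχ2⟩ := eulerian G.t G.h (M ∪ B) (fun v => by
      have h1 := hdegMB v
      have h2 := hM v
      have h3 := hB1 v (by rw [hUe]; simp)
      rw [h2, h3] at h1
      unfold deg at h1
      rw [h1]; decide)
    refine ⟨fun e => if e ∈ M then χ e else 0, ?_, ?_⟩
    · intro e
      constructor
      · intro he
        simp only [he, if_true]
        exact (hχ1 e).1 (Finset.mem_union_left _ he)
      · intro he
        simp [he]
    · intro X
      have h1 : ∑ v ∈ X, net G.t G.h (fun e => if e ∈ M then χ e else 0) v =
          - ∑ v ∈ X, net G.t G.h (fun e => if e ∈ B then χ e else 0) v := by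
        have h3 : ∑ v ∈ X, net G.t G.h χ v = 0 := by
          rw [Finset.sum_congr rfl (fun v _ => hχ2 v)]; simp
        have h4 : ∀ e, χ e = (if e ∈ M then χ e else 0) + (if e ∈ B then χ e else 0) := by
          intro e
          by_cases a : e ∈ M
          · have : e ∉ B := Finset.disjoint_left.1 hMB a
            simp [a, this]
          · by_cases b : e ∈ B
            · simp [a, b]
            · have := (hχ1 e).2 (by simp [a, b])
              simp [a, b, this]
        have h5 : ∑ v ∈ X, net G.t G.h χ v =
            ∑ v ∈ X, net G.t G.h (fun e => if e ∈ M then χ e else 0) v +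
            ∑ v ∈ X, net G.t G.h (fun e => if e ∈ B then χ e else 0) v := by
          rw [← Finset.sum_add_distrib]
          refine Finset.sum_congr rfl fun v _ => ?_
          unfold net
          have h6 : ∀ s : Finset E, ∑ e ∈ s, χ e = ∑ e ∈ s, (if e ∈ M then χ e else 0) +
              ∑ e ∈ s, (if e ∈ B then χ e else 0) := by
            intro s
            rw [← Finset.sum_add_distrib]
            exact Finset.sum_congr rfl fun e _ => h4 e
          rw [h6 (univ.filter (fun e => G.t e = v)), h6 (univ.filter (fun e => G.h e = v))]
          ring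
        linarith
      rw [h1, abs_neg]
      refine (G.abs_net_le _ B ?_ ?_ X).trans ?_
      · intro e he
        simp only [he, if_true]
        rcases (hχ1 e).1 (Finset.mem_union_right _ he) with h | h <;> rw [h] <;> simp
      · intro e he
        simp [he]
      · have := Int.natCast_nonneg (((G.cut X ∩ B).card + (G.cut X ∩ M).card) % 2)
        linarith
  · -- two uncovered vertices
    obtain ⟨u₁, u₂, hne, hU2⟩ := Finset.card_eq_two.1 h2
    let t' : Option E → V := fun o => o.elim u₁ G.t
    let h' : Option E → V := fun o => o.elim u₂ G.h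
    let F' : Finset (Option E) := insertNone (M ∪ B)
    have hfil : ∀ (k : E → V) (u v : V),
        (F'.filter (fun o => o.elim u k = v)).card =
          ((M ∪ B).filter (fun e => k e = v)).card + (if u = v then 1 else 0) := by
      intro k u v
      simp only [F']
      rw [Finset.card_filter, Finset.sum_insertNone, Finset.card_filter]
      rw [add_comm]
      rfl
    obtain ⟨χ, hχ1, hχ2⟩ := eulerian t' h' F' (fun v => by
      simp only [t', h']
      rw [hfil, hfil]
      have h1 := hdegMB v
      rw [hM v] at h1
      have hUv : (v ∈ U) ↔ (u₁ = v ∨ u₂ = v) := by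
        rw [hU2]; simp [eq_comm]
      unfold deg at h1
      by_cases a : u₁ = v
      · have b : u₂ ≠ v := fun b => hne (a.trans b.symm)
        have h3 := hB0 v (hUv.2 (Or.inl a))
        unfold deg at h3
        rw [if_pos a, if_neg b]
        exact ⟨1, by omega⟩
      · by_cases b : u₂ = v
        · have h3 := hB0 v (hUv.2 (Or.inr b))
          unfold deg at h3
          rw [if_neg a, if_pos b]
          exact ⟨1, by omega⟩
        · have h3 := hB1 v (by rw [hUv]; simp [a, b])
          unfold deg at h3
          rw [if_neg a, if_neg b]
          exact ⟨1, by omega⟩)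
    refine ⟨fun e => if e ∈ M then χ (some e) else 0, ?_, ?_⟩
    · intro e
      constructor
      · intro he
        simp only [he, if_true]
        exact (hχ1 (some e)).1 (by simp [F', he])
      · intro he
        simp [he]
    · intro X
      have hnet : ∀ v, net t' h' χ v = net G.t G.h (fun e => if e ∈ M then χ (some e) else 0) v +
          net G.t G.h (fun e => if e ∈ B then χ (some e) else 0) v +
          ((if u₁ = v then χ none else 0) - (if u₂ = v then χ none else 0)) := by
        intro v
        have h4 : ∀ e, χ (some e) = (if e ∈ M then χ (some e) else 0) +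
            (if e ∈ B then χ (some e) else 0) := by
          intro e
          by_cases a : e ∈ M
          · have : e ∉ B := Finset.disjoint_left.1 hMB a
            simp [a, this]
          · by_cases b : e ∈ B
            · simp [a, b]
            · have := (hχ1 (some e)).2 (by simp [F', a, b])
              simp [a, b, this]
        have h5 : ∀ (k : E → V) (u : V), ∑ o with o.elim u k = v, χ o =
            ∑ e with k e = v, (if e ∈ M then χ (some e) else 0) +
            ∑ e with k e = v, (if e ∈ B then χ (some e) else 0) + (if u = v then χ none else 0) := by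
          intro k u
          rw [Finset.sum_filter, Fintype.sum_option, Finset.sum_filter, Finset.sum_filter,
            ← Finset.sum_add_distrib]
          simp only [Option.elim]
          rw [add_comm]
          congr 1
          refine Finset.sum_congr rfl fun e _ => ?_
          by_cases hk : k e = v
          · simp only [hk, if_true]; exact h4 e
          · simp [hk]
        unfold net
        simp only [t', h']
        rw [h5, h5]
        ring
      have hsum : ∑ v ∈ X, net G.t G.h (fun e => if e ∈ M then χ (some e) else 0) v =
          -(∑ v ∈ X, net G.t G.h (fun e => if e ∈ B then χ (some e) else 0) v) -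
          ((if u₁ ∈ X then χ none else 0) - (if u₂ ∈ X then χ none else 0)) := by
        have h3 : ∑ v ∈ X, net t' h' χ v = 0 := by
          rw [Finset.sum_congr rfl (fun v _ => hχ2 v)]; simp
        simp_rw [hnet] at h3
        rw [Finset.sum_add_distrib, Finset.sum_add_distrib, Finset.sum_sub_distrib] at h3
        simp only [Finset.sum_ite_eq] at h3
        linarith
      rw [hsum]
      have hbd := G.abs_net_le (fun e => if e ∈ B then χ (some e) else 0) B (by
        intro e he
        simp only [he, if_true]
        rcases (hχ1 (some e)).1 (by simp [F', he]) with h | h <;> rw [h] <;> simp) (by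
        intro e he
        simp [he]) X
      have hnone : χ none = 1 ∨ χ none = -1 := (hχ1 none).1 (by simp [F'])
      have hpar := (hparX X).1
      have hXU : (X ∩ U).card = (if u₁ ∈ X then 1 else 0) + (if u₂ ∈ X then 1 else 0) := by
        rw [Finset.inter_comm, hU2]
        have : ({u₁, u₂} : Finset V) ∩ X = ({u₁, u₂} : Finset V).filter (fun v => v ∈ X) := by
          ext v; simp
        rw [this, Finset.card_filter, Finset.sum_pair hne]
      rw [hXU] at hpar
      rw [abs_le] at hbd ⊢
      by_cases a : u₁ ∈ X <;> by_cases b : u₂ ∈ X <;> simp only [a, b, if_true, if_false] at hpar ⊢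
      all_goals rcases hnone with h | h <;> (try rw [h]) <;> omega

end OrGraph
end Pool.Agent.H160R2.HF
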