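import Pool.Agent.H160R2.HF.Defs
import Pool.Agent.H160R2.HF.Hoffman
import Pool.Agent.H160R2.HF.Perm

namespace Pool.Agent.H160R2.HF
open Finset

namespace OrGraph
variable {V E : Type*} [Fintype V] [Fintype E] [DecidableEq V] [DecidableEq E] (G : OrGraph V E)

omit [Fintype V] in
theorem handshake [Fintype V] (F : Finset E) (X : Finset V) :
    ∑ v ∈ X, G.deg F v =
      2 * (F.filter (fun e => G.t e ∈ X ∧ G.h e ∈ X)).card + (G.cut X ∩ F).card := by
  unfold deg
  rw [Finset.sum_add_distrib]
  have h1 : ∀ k : E → V, ∑ v ∈ X, (F.filter (fun e => k e = v)).card =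
      ∑ e ∈ F, if k e ∈ X then 1 else 0 := by
    intro k
    simp_rw [Finset.card_filter]
    rw [Finset.sum_comm]
    refine Finset.sum_congr rfl fun e _ => ?_
    simp
  rw [h1, h1]
  have h2 : G.cut X ∩ F = F.filter (fun e => ¬ (G.t e ∈ X ↔ G.h e ∈ X)) := by
    ext e; simp [cut, and_comm]
  rw [h2, Finset.card_filter, Finset.card_filter, Finset.mul_sum, ← Finset.sum_add_distrib,
    ← Finset.sum_add_distrib]
  refine Finset.sum_congr rfl fun e _ => ?_
  by_cases a : G.t e ∈ X <;> by_cases b : G.h e ∈ X <;> simp [a, b]

/-- From a 2-factor with at most two odd components one gets a matching inside it missing at most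
two vertices. -/
theorem exists_matching (F : Finset E) (hF : G.IsTwoFactor F) (hodd : G.oddCount F ≤ 2) :
    ∃ B ⊆ F, (∀ v, G.deg B v ≤ 1) ∧ (univ.filter (fun v => G.deg B v = 0)).card ≤ 2 := by
  classical
  obtain ⟨ψ, hψ1, hψ2⟩ := eulerian G.t G.h F (fun v => by
    have := hF v
    unfold deg at this
    rw [this]; decide)
  -- source and target of the oriented edges
  let src : E → V := fun e => if ψ e = 1 then G.t e else G.h e
  let tgt : E → V := fun e => if ψ e = 1 then G.h e else G.t e
  have hcount : ∀ v, (F.filter (fun e => src e = v)).card = 1 ∧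
      (F.filter (fun e => tgt e = v)).card = 1 := by
    intro v
    have hsum : (F.filter (fun e => src e = v)).card + (F.filter (fun e => tgt e = v)).card = 2 := by
      rw [← hF v]
      unfold deg
      simp_rw [Finset.card_filter]
      rw [← Finset.sum_add_distrib, ← Finset.sum_add_distrib]
      refine Finset.sum_congr rfl fun e _ => ?_
      simp only [src, tgt]
      by_cases h : ψ e = 1
      · simp [h]
      · simp [h, add_comm]
    have hdiff : ((F.filter (fun e => src e = v)).card : ℤ) =
        (F.filter (fun e => tgt e = v)).card := by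
      have h0 := hψ2 v
      unfold net at h0
      have h1 : ∀ k : E → V, ∑ e with k e = v, ψ e = ∑ e ∈ F, if k e = v then ψ e else 0 := by
        intro k
        rw [Finset.sum_filter]
        symm
        apply Finset.sum_subset (Finset.subset_univ F)
        intro e _ he
        rw [(hψ1 e).2 he]; simp
      rw [h1, h1, ← Finset.sum_sub_distrib] at h0
      have h2 : ((F.filter (fun e => src e = v)).card : ℤ) -
          (F.filter (fun e => tgt e = v)).card = 0 := by
        rw [← h0]
        simp_rw [Finset.card_filter]
        push_cast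
        rw [← Finset.sum_sub_distrib]
        refine Finset.sum_congr rfl fun e he => ?_
        simp only [src, tgt]
        rcases (hψ1 e).1 he with h | h
        · simp [h]
        · have h' : ψ e ≠ 1 := by rw [h]; decide
          simp only [h]
          by_cases a : G.t e = v <;> by_cases b : G.h e = v <;> simp [a, b]
      linarith
    have hdiff' : (F.filter (fun e => src e = v)).card = (F.filter (fun e => tgt e = v)).card := by
      exact_mod_cast hdiff
    omega
  have hout : ∀ v, ∃ e ∈ F, src e = v ∧ ∀ e' ∈ F, src e' = v → e' = e := by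
    intro v
    obtain ⟨e, he⟩ := Finset.card_eq_one.1 (hcount v).1
    have h1 : e ∈ F.filter (fun e => src e = v) := by rw [he]; simp
    rw [Finset.mem_filter] at h1
    refine ⟨e, h1.1, h1.2, fun e' h2 h3 => ?_⟩
    have : e' ∈ F.filter (fun e => src e = v) := Finset.mem_filter.2 ⟨h2, h3⟩
    rw [he] at this
    simpa using this
  choose out hout1 hout2 hout3 using hout
  have hinj : Function.Injective (fun v => tgt (out v)) := by
    intro v w hvw
    simp only at hvw
    obtain ⟨e, he⟩ := Finset.card_eq_one.1 (hcount (tgt (out w))).2
    have h1 : out v ∈ F.filter (fun e => tgt e = tgt (out w)) :=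
      Finset.mem_filter.2 ⟨hout1 v, hvw⟩
    have h2 : out w ∈ F.filter (fun e => tgt e = tgt (out w)) :=
      Finset.mem_filter.2 ⟨hout1 w, rfl⟩
    rw [he, Finset.mem_singleton] at h1 h2
    rw [← hout2 v, ← hout2 w, h1, h2]
  let π : Equiv.Perm V := Equiv.ofBijective (fun v => tgt (out v))
    (Finite.injective_iff_bijective.1 hinj)
  have hπ : ∀ v, π v = tgt (out v) := fun v => rfl
  have hsrc_out : ∀ e ∈ F, out (src e) = e := fun e he => (hout3 (src e) e he rfl).symm
  have hπ' : ∀ e ∈ F, π (src e) = tgt e := fun e he => by rw [hπ, hsrc_out e he]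
  obtain ⟨p, R, hp1, hp2, hp3⟩ := perm_parity π
  -- the matching
  let B : Finset E := F.filter (fun e => p (src e))
  have hdegB : ∀ v, G.deg B v = (if p v then 1 else 0) + (if p (π.symm v) then 1 else 0) := by
    intro v
    have h1 : G.deg B v = (B.filter (fun e => src e = v)).card +
        (B.filter (fun e => tgt e = v)).card := by
      unfold deg
      simp_rw [Finset.card_filter]
      rw [← Finset.sum_add_distrib, ← Finset.sum_add_distrib]
      refine Finset.sum_congr rfl fun e _ => ?_
      simp only [src, tgt]
      by_cases h : ψ e = 1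
      · simp [h]
      · simp [h, add_comm]
    rw [h1]
    congr 1
    · have : B.filter (fun e => src e = v) = if p v then {out v} else ∅ := by
        ext e
        simp only [B, Finset.mem_filter]
        constructor
        · rintro ⟨⟨h2, h3⟩, h4⟩
          rw [h4] at h3
          rw [if_pos h3, Finset.mem_singleton]
          exact hout3 v e h2 h4
        · intro h2
          by_cases h3 : p v
          · rw [if_pos h3, Finset.mem_singleton] at h2
            subst h2
            exact ⟨⟨hout1 v, by rw [hout2]; exact h3⟩, hout2 v⟩
          · rw [if_neg h3] at h2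
            simp at h2
      rw [this]
      split_ifs <;> simp
    · have : B.filter (fun e => tgt e = v) = if p (π.symm v) then {out (π.symm v)} else ∅ := by
        ext e
        simp only [B, Finset.mem_filter]
        constructor
        · rintro ⟨⟨h2, h3⟩, h4⟩
          have h5 : π.symm v = src e := by
            rw [Equiv.symm_apply_eq, hπ' e h2, h4]
          rw [h5, if_pos h3, Finset.mem_singleton, hsrc_out e h2]
        · intro h2
          by_cases h3 : p (π.symm v)
          · rw [if_pos h3, Finset.mem_singleton] at h2
            subst h2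
            refine ⟨⟨hout1 _, by rw [hout2]; exact h3⟩, ?_⟩
            rw [← hπ, Equiv.apply_symm_apply]
          · rw [if_neg h3] at h2
            simp at h2
      rw [this]
      split_ifs <;> simp
  have hcov : ∀ v, v ∉ R → G.deg B v = 1 := by
    intro v hv
    rw [hdegB]
    have := hp1 (π.symm v) (by rwa [Equiv.apply_symm_apply])
    rw [Equiv.apply_symm_apply] at this
    by_cases h : p (π.symm v)
    · rw [if_pos h, if_neg (by rw [this]; simpa using h)]
    · rw [if_neg h, if_pos (by rw [this]; exact h)]
  have hR : ∀ v ∈ R, G.deg B v ≤ 1 := by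
    intro v hv
    rw [hdegB, if_neg (hp2 v hv)]
    split_ifs <;> simp
  refine ⟨B, Finset.filter_subset _ _, fun v => ?_, ?_⟩
  · by_cases hv : v ∈ R
    · exact hR v hv
    · exact (hcov v hv).le
  -- the uncovered vertices lie in distinct odd components
  have hadj_same : ∀ u v, (G.sub F).Adj u v → π.SameCycle u v := by
    intro u v huv
    have hone : ∀ e ∈ F, π.SameCycle (G.t e) (G.h e) := by
      intro e he
      have h1 : π.SameCycle (src e) (tgt e) := by
        rw [← hπ' e he]
        exact (Equiv.Perm.SameCycle.refl π (src e)).apply_right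
      simp only [src, tgt] at h1
      by_cases h : ψ e = 1
      · simpa [h] using h1
      · simp only [h, if_false] at h1
        exact h1.symm
    rw [sub, SimpleGraph.fromRel_adj] at huv
    rcases huv.2 with ⟨e, he, h1, h2⟩ | ⟨e, he, h1, h2⟩
    · rw [← h1, ← h2]; exact hone e he
    · rw [← h1, ← h2]; exact (hone e he).symm
  have hreach_same : ∀ u v, (G.sub F).Reachable u v → π.SameCycle u v := by
    intro u v huv
    obtain ⟨w⟩ := huv
    induction w with
    | nil => exact Equiv.Perm.SameCycle.refl π _
    | cons h _ ih => exact (hadj_same _ _ h).trans ih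
  let U : Finset V := univ.filter (fun v => G.deg B v = 0)
  have hUR : ∀ v ∈ U, v ∈ R := by
    intro v hv
    by_contra h
    have h1 := hcov v h
    have h2 := (Finset.mem_filter.1 hv).2
    omega
  have hUodd : ∀ v ∈ U, Odd ((G.sub F).connectedComponentMk v).supp.ncard := by
    intro v hv
    set X : Finset V := ((G.sub F).connectedComponentMk v).supp.toFinset with hX
    have hmem : ∀ w, w ∈ X ↔ (G.sub F).Reachable w v := by
      intro w
      rw [hX, Set.mem_toFinset, SimpleGraph.ConnectedComponent.mem_supp_iff,
        SimpleGraph.ConnectedComponent.eq]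
    rw [Set.ncard_eq_toFinset_card', ← hX]
    have hvX : v ∈ X := (hmem v).2 (SimpleGraph.Reachable.refl v)
    have hcut : G.cut X ∩ B = ∅ := by
      rw [Finset.eq_empty_iff_forall_notMem]
      intro e he
      rw [Finset.mem_inter, cut, Finset.mem_filter] at he
      obtain ⟨⟨_, h1⟩, h2⟩ := he
      have h3 : e ∈ F := (Finset.mem_filter.1 h2).1
      apply h1
      have h4 : (G.sub F).Reachable (G.t e) (G.h e) := by
        by_cases h5 : G.t e = G.h e
        · rw [h5]
        · apply SimpleGraph.Adj.reachable
          rw [sub, SimpleGraph.fromRel_adj]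
          exact ⟨h5, Or.inl ⟨e, h3, rfl, rfl⟩⟩
      rw [hmem, hmem]
      exact ⟨fun h => h4.symm.trans h, fun h => h4.trans h⟩
    have hs := G.handshake B X
    rw [hcut] at hs
    have hs2 : ∑ w ∈ X, G.deg B w = X.card - 1 := by
      rw [← Finset.sum_erase_add X _ hvX]
      have h1 : G.deg B v = 0 := (Finset.mem_filter.1 hv).2
      rw [h1, add_zero]
      have h2 : ∀ w ∈ X.erase v, G.deg B w = 1 := by
        intro w hw
        apply hcov
        intro hwR
        rw [Finset.mem_erase] at hw
        apply hw.1
        exact hp3 w hwR v (hUR v hv) (hreach_same w v ((hmem w).1 hw.2))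
      rw [Finset.sum_congr rfl h2]
      simp [Finset.card_erase_of_mem hvX]
    rw [hs2] at hs
    have hpos : 0 < X.card := Finset.card_pos.2 ⟨v, hvX⟩
    simp at hs
    exact ⟨(B.filter (fun e => G.t e ∈ X ∧ G.h e ∈ X)).card, by omega⟩
  -- conclusion
  have hle : U.card ≤ G.oddCount F := by
    unfold oddCount
    rw [← Set.ncard_coe_finset U]
    apply Set.ncard_le_ncard_of_injOn (fun v => (G.sub F).connectedComponentMk v)
    · intro v hv
      exact hUodd v (by simpa using hv)
    · intro u hu v hv huv
      simp only at huv
      rw [SimpleGraph.ConnectedComponent.eq] at huv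
      exact hp3 u (hUR u (by simpa using hu)) v (hUR v (by simpa using hv))
        (hreach_same u v huv)
  exact hle.trans hodd

end OrGraph
end Pool.Agent.H160R2.HF
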